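import Mathlib

/-! Artin groups and dual Artin groups of a Coxeter system. -/

namespace Pool.Agent.MP_d5a4a4_al.H32

variable {B W : Type*} [Group W] {M : CoxeterMatrix B} (cs : CoxeterSystem M W)

/-- Reflection length: the least length of a list of reflections with product `u`. -/
noncomputable def lT (u : W) : ℕ :=
  sInf {k | ∃ l : List W, (∀ t ∈ l, cs.IsReflection t) ∧ l.prod = u ∧ l.length = k}

/-- The absolute order. -/
def absLe (u v : W) : Prop := lT cs u + lT cs (u⁻¹ * v) = lT cs v

/-- The alternating word `a b a b ...` of length `m`. -/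
def altWord {G : Type*} [Monoid G] (a b : G) (m : ℕ) : G :=
  ((List.range m).map fun k => if Even k then a else b).prod

/-- The braid relators: one for each `i ≠ j` such that `s_i s_j` has finite order. -/
def artinRels : Set (FreeGroup B) :=
  {r | ∃ i j : B, i ≠ j ∧ IsOfFinOrder (cs.simple i * cs.simple j) ∧
    r = altWord (FreeGroup.of i) (FreeGroup.of j) (orderOf (cs.simple i * cs.simple j)) *
      (altWord (FreeGroup.of j) (FreeGroup.of i) (orderOf (cs.simple i * cs.simple j)))⁻¹}

/-- The relators `[u] [v] [u v]⁻¹` for `u, v, u v` in `[1, w]` with additive reflection length. -/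
def dualRels (w : W) : Set (FreeGroup {u : W // absLe cs u w}) :=
  {r | ∃ u v p : {u : W // absLe cs u w}, p.1 = u.1 * v.1 ∧ lT cs p.1 = lT cs u.1 + lT cs v.1 ∧
    r = FreeGroup.of u * FreeGroup.of v * (FreeGroup.of p)⁻¹}

end Pool.Agent.MP_d5a4a4_al.H32
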